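import Mathlib

set_option autoImplicit false

/-!
# Groups of equal order and equal degree pattern with different prime graphs

The two groups have order `77658 = 2 * 3 * 7 * 43 ^ 2`.

* `G` is the Frobenius group `(C_43 × C_43 × C_7) ⋊ C_6`; its prime graph has the edges
  `2 - 3` and `7 - 43`.
* `M` is the group `(C_43 × C_43) ⋊ D`, where the dihedral group `D` of order `42` acts by its
  faithful two-dimensional representation; its prime graph has the edges `3 - 7` and `2 - 43`.
-/

namespace Pool.Agent.Results.MP_21cc58_al.DegreePatternFails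

/-- The prime graph (Gruenberg-Kegel graph) of a group, as a graph on the natural numbers all of
whose edges join prime divisors of the order of the group. -/
def primeGraph (G : Type) [Group G] : SimpleGraph ℕ where
  Adj p q := p ≠ q ∧ p ∈ (Nat.card G).primeFactors ∧ q ∈ (Nat.card G).primeFactors ∧
    ∃ g : G, orderOf g = p * q
  symm := ⟨fun p q h => by
    obtain ⟨h1, h2, h3, g, hg⟩ := h
    exact ⟨h1.symm, h3, h2, g, by rw [hg, mul_comm]⟩⟩
  loopless := ⟨fun p h => h.1 rfl⟩

/-- The degree pattern: the degrees of the prime divisors `p_1 < p_2 < ... < p_k` of the order. -/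
noncomputable def degreePattern (G : Type) [Group G] : List ℕ :=
  ((Nat.card G).primeFactors.sort (· ≤ ·)).map fun p => ((primeGraph G).neighborSet p).ncard

/-! ### General facts on semidirect products -/

section General

variable {V : Type} [AddCommGroup V] {K : Type} [Group K] [DistribMulAction K V]

/-- the semidirect product of `V` by `K` -/
abbrev SD (V : Type) [AddCommGroup V] (K : Type) [Group K] [DistribMulAction K V] : Type :=
  SemidirectProduct (Multiplicative V) K
    ((MulAutMultiplicative V).symm.toMonoidHom.comp (DistribMulAction.toAddAut K V))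

lemma act_eq (k : K) (v : V) :
    ((MulAutMultiplicative V).symm.toMonoidHom.comp (DistribMulAction.toAddAut K V)) k
      (Multiplicative.ofAdd v) = Multiplicative.ofAdd (k • v) := rfl

lemma mul_left (a b : SD V K) :
    (a * b).left.toAdd = a.left.toAdd + a.right • b.left.toAdd := rfl

lemma right_pow (a : SD V K) (n : ℕ) : (a ^ n).right = a.right ^ n := by
  exact map_pow (SemidirectProduct.rightHom) a n

lemma eq_inl (a : SD V K) (h : a.right = 1) : a = SemidirectProduct.inl a.left := by
  apply SemidirectProduct.ext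
  · rfl
  · exact h

/-- an element whose order is prime to the order of `K` lies in `V` -/
lemma right_eq_one [Finite K] (a : SD V K) (h : (orderOf a).Coprime (Nat.card K)) :
    a.right = 1 := by
  have h1 : a.right ^ orderOf a = 1 := by
    rw [← right_pow, pow_orderOf_eq_one]; rfl
  have h2 : orderOf a.right ∣ orderOf a := orderOf_dvd_of_pow_eq_one h1
  have h3 : orderOf a.right ∣ Nat.card K := orderOf_dvd_natCard _
  have h4 : orderOf a.right ∣ 1 := by
    rw [← h]
    exact Nat.dvd_gcd h2 h3
  exact orderOf_eq_one_iff.1 (Nat.dvd_one.1 h4)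

/-- a nontrivial element whose order is prime to the order of `V` does not lie in `V` -/
lemma right_ne_one [Finite V] (a : SD V K) (h : (orderOf a).Coprime (Nat.card V))
    (h1 : orderOf a ≠ 1) : a.right ≠ 1 := by
  intro h0
  have h2 := eq_inl a h0
  have h3 : orderOf a = orderOf a.left := by
    conv_lhs => rw [h2]
    exact orderOf_injective _ SemidirectProduct.inl_injective _
  have h4 : orderOf a.left ∣ Nat.card (Multiplicative V) := orderOf_dvd_natCard _
  have h5 : Nat.card (Multiplicative V) = Nat.card V := rfl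
  rw [h5, ← h3] at h4
  have : orderOf a ∣ 1 := by
    rw [← h]
    exact Nat.dvd_gcd dvd_rfl h4
  exact h1 (Nat.dvd_one.1 this)

/-- commuting elements, the second in `V` -/
lemma fixed_of_commute (a b : SD V K) (hb : b.right = 1) (h : a * b = b * a) :
    a.right • b.left.toAdd = b.left.toAdd := by
  have h1 := congrArg (fun x : SD V K => x.left.toAdd) h
  simp only [mul_left, hb, one_smul] at h1
  have h2 : a.left.toAdd + a.right • b.left.toAdd = a.left.toAdd + b.left.toAdd := by
    rw [h1, add_comm]
  exact add_left_cancel h2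

lemma left_ne_zero (b : SD V K) (hb : b.right = 1) (h1 : orderOf b ≠ 1) :
    b.left.toAdd ≠ 0 := by
  intro h
  apply h1
  rw [orderOf_eq_one_iff]
  ext
  · exact h
  · simpa using hb

lemma split_order {G : Type} [Group G] (g : G) (p q : ℕ) (hp : p ≠ 0) (hq : q ≠ 0)
    (h : orderOf g = p * q) :
    ∃ a b : G, orderOf a = p ∧ orderOf b = q ∧ a * b = b * a := by
  refine ⟨g ^ q, g ^ p, ?_, ?_, ?_⟩
  · rw [orderOf_pow_of_dvd hq (by rw [h]; exact dvd_mul_left _ _), h,
      Nat.mul_div_cancel _ (Nat.pos_of_ne_zero hq)]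
  · rw [orderOf_pow_of_dvd hp (by rw [h]; exact dvd_mul_right _ _), h,
      Nat.mul_div_cancel_left _ (Nat.pos_of_ne_zero hp)]
  · rw [← pow_add, ← pow_add, add_comm]

lemma order_mul {G : Type} [Group G] (a b : G) (h : a * b = b * a)
    (hc : (orderOf a).Coprime (orderOf b)) : orderOf (a * b) = orderOf a * orderOf b :=
  Commute.orderOf_mul_eq_mul_orderOf_of_coprime h hc

end General

/-! ### The first group -/

abbrev R : Type := ZMod 43 × ZMod 43 × ZMod 7

instance : Fact (Nat.Prime 43) := ⟨by norm_num⟩
instance : Fact (Nat.Prime 7) := ⟨by norm_num⟩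

/-- a unit of order `6` of the ring `R` -/
def U : Rˣ where
  val := (37, 37, 3)
  inv := (7, 7, 5)
  val_inv := by decide
  inv_val := by decide

lemma orderOf_U : orderOf U = 6 := by
  rw [orderOf_eq_iff (by norm_num)]
  constructor
  · apply Units.ext
    rw [Units.val_pow_eq_pow_val]
    decide
  · intro m hm hm0 h
    have h2 : (U : R) ^ m = 1 := by
      rw [← Units.val_pow_eq_pow_val, h]; rfl
    revert h2
    interval_cases m <;> decide

abbrev K1 : Type := Subgroup.zpowers U

lemma card_K1 : Nat.card K1 = 6 := by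
  rw [Nat.card_zpowers, orderOf_U]

instance : Finite K1 := Nat.finite_of_card_ne_zero (by rw [card_K1]; norm_num)

lemma card_R : Nat.card R = 43 * 43 * 7 := by
  rw [Nat.card_prod, Nat.card_prod, Nat.card_zmod, Nat.card_zmod]

/-- nontrivial elements of `K1` have no nonzero fixed points -/
lemma fpf1 (k : K1) (hk : k ≠ 1) (v : R) (h : k • v = v) : v = 0 := by
  obtain ⟨k, hk2⟩ := k
  have h1 : k ∈ Finset.image (fun i => U ^ i) (Finset.range (orderOf U)) :=
    (isOfFinOrder_of_finite U).mem_zpowers_iff_mem_range_orderOf.1 hk2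
  rw [Finset.mem_image] at h1
  obtain ⟨i, hi, rfl⟩ := h1
  rw [orderOf_U, Finset.mem_range] at hi
  have h2 : (U : R) ^ i * v = v := by
    have h3 : (⟨U ^ i, hk2⟩ : K1) • v = ((U ^ i : Rˣ) : R) * v := rfl
    rw [← Units.val_pow_eq_pow_val, ← h3, h]
  have hi0 : i ≠ 0 := by
    rintro rfl
    apply hk
    apply Subtype.ext
    simp
  obtain ⟨x, y, z⟩ := v
  have hU : (U : R) = (37, 37, 3) := rfl
  rw [hU] at h2
  simp only [Prod.pow_mk, Prod.mk_mul_mk, Prod.mk.injEq] at h2
  obtain ⟨hx, hy, hz⟩ := h2
  have key : ∀ x : ZMod 43, (37 : ZMod 43) ^ i * x = x → x = 0 := by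
    clear hk h hx hy hz hU
    interval_cases i <;> first | exact absurd rfl hi0 | decide
  have key2 : ∀ x : ZMod 7, (3 : ZMod 7) ^ i * x = x → x = 0 := by
    clear hk h hx hy hz hU
    interval_cases i <;> first | exact absurd rfl hi0 | decide
  rw [key x hx, key y hy, key2 z hz]
  rfl

abbrev G1 : Type := SD R K1

instance : Finite G1 := Finite.of_equiv _ SemidirectProduct.equivProd.symm

lemma card_G1 : Nat.card G1 = 77658 := by
  have h : Nat.card G1 = Nat.card (Multiplicative R) * Nat.card K1 := SemidirectProduct.card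
  rw [h, card_K1]
  have h2 : Nat.card (Multiplicative R) = Nat.card R := rfl
  rw [h2, card_R]

/-! ### The second group -/

/-- the vector space of dimension two over the field with `43` elements -/
def W : Type := ZMod 43 × ZMod 43

instance : AddCommGroup W := inferInstanceAs (AddCommGroup (ZMod 43 × ZMod 43))
instance : Finite W := inferInstanceAs (Finite (ZMod 43 × ZMod 43))

lemma card_W : Nat.card W = 43 * 43 := by
  have h : Nat.card W = Nat.card (ZMod 43 × ZMod 43) := rfl
  rw [h, Nat.card_prod, Nat.card_zmod]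

/-- a unit of order `21` modulo `43` -/
def zeta : (ZMod 43)ˣ where
  val := 9
  inv := 24
  val_inv := by decide
  inv_val := by decide

lemma zeta_pow : zeta ^ 21 = 1 := by
  apply Units.ext
  rw [Units.val_pow_eq_pow_val]
  decide

/-- powers of `zeta` with exponents modulo `21` -/
def zp (i : ZMod 21) : (ZMod 43)ˣ := zeta ^ i.val

lemma zp_add (i j : ZMod 21) : zp (i + j) = zp i * zp j := by
  unfold zp
  rw [ZMod.val_add, ← pow_add, ← pow_mod_orderOf zeta (i.val + j.val)]
  rw [← pow_mod_orderOf zeta ((i.val + j.val) % 21)]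
  congr 1
  exact Nat.mod_mod_of_dvd _ (orderOf_dvd_of_pow_eq_one zeta_pow)

lemma zp_zero : zp 0 = 1 := by
  unfold zp
  simp

lemma zp_neg (i : ZMod 21) : zp (-i) = (zp i)⁻¹ := by
  rw [eq_inv_iff_mul_eq_one, ← zp_add, neg_add_cancel, zp_zero]

lemma zp_sub (i j : ZMod 21) : zp (i - j) = zp i * (zp j)⁻¹ := by
  rw [sub_eq_add_neg, zp_add, zp_neg]

/-- the action of the dihedral group of order `42`: rotations act as `diag (ζ^i, ζ^(-i))`,
reflections exchange the coordinates -/
def act : DihedralGroup 21 → W → W
  | .r i, v => ((zp i : ZMod 43) * v.1, ((zp i)⁻¹ : (ZMod 43)ˣ) * v.2)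
  | .sr i, v => (((zp i)⁻¹ : (ZMod 43)ˣ) * v.2, (zp i : ZMod 43) * v.1)

instance : DistribMulAction (DihedralGroup 21) W where
  smul := act
  one_smul v := by
    show act 1 v = v
    rw [DihedralGroup.one_def]
    unfold act
    simp only [zp_zero, inv_one, Units.val_one, one_mul]
    rfl
  mul_smul a b v := by
    show act (a * b) v = act a (act b v)
    rcases a with i | i <;> rcases b with j | j <;>
      simp only [DihedralGroup.r_mul_r, DihedralGroup.r_mul_sr, DihedralGroup.sr_mul_r,
        DihedralGroup.sr_mul_sr, act, zp_add, zp_sub, mul_inv_rev, inv_inv, Units.val_mul] <;>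
      refine Prod.ext ?_ ?_ <;> simp only <;> ring
  smul_zero a := by
    show act a 0 = 0
    rcases a with i | i <;> unfold act <;> refine Prod.ext ?_ ?_ <;>
      exact mul_zero _
  smul_add a v w := by
    show act a (v + w) = act a v + act a w
    rcases a with i | i <;> unfold act <;> refine Prod.ext ?_ ?_ <;>
      exact mul_add _ _ _

abbrev D : Type := DihedralGroup 21

instance : Finite D := inferInstance

lemma card_D : Nat.card D = 42 := by
  rw [DihedralGroup.nat_card]

lemma zeta_ne (i : ZMod 21) (hi : i ≠ 0) : ((zp i : (ZMod 43)ˣ) : ZMod 43) ≠ 1 := by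
  unfold zp
  rw [Units.val_pow_eq_pow_val]
  have h : (zeta : ZMod 43) = 9 := rfl
  rw [h]
  revert i
  decide

lemma fixed_r (i : ZMod 21) (hi : i ≠ 0) (v : W) (h : (DihedralGroup.r i : D) • v = v) : v = 0 := by
  have h1 : act (DihedralGroup.r i) v = v := h
  unfold act at h1
  have hx : (zp i : ZMod 43) * v.1 = v.1 := congrArg Prod.fst h1
  have hy : (((zp i)⁻¹ : (ZMod 43)ˣ) : ZMod 43) * v.2 = v.2 := congrArg Prod.snd h1
  rw [← zp_neg] at hy
  have key : ∀ (a x : ZMod 43), a ≠ 1 → a * x = x → x = 0 := by
    intro a x ha hax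
    have : (a - 1) * x = 0 := by rw [sub_mul, hax, one_mul, sub_self]
    rcases mul_eq_zero.1 this with h | h
    · exact absurd (sub_eq_zero.1 h) ha
    · exact h
  have h1 := key _ _ (zeta_ne i hi) hx
  have h2 := key _ _ (zeta_ne (-i) (neg_ne_zero.2 hi)) hy
  exact Prod.ext h1 h2

abbrev G2 : Type := SD W D

instance : Finite G2 := Finite.of_equiv _ SemidirectProduct.equivProd.symm

lemma card_G2 : Nat.card G2 = 77658 := by
  have h : Nat.card G2 = Nat.card (Multiplicative W) * Nat.card D := SemidirectProduct.card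
  rw [h, card_D]
  have h2 : Nat.card (Multiplicative W) = Nat.card W := rfl
  rw [h2, card_W]

/-! ### Orders of elements of the first group -/

lemma primes_eq : (77658 : ℕ).primeFactors = {2, 3, 7, 43} := by
  have h : (77658 : ℕ) = 2 * (3 * (7 * 43 ^ 2)) := by norm_num
  rw [h, Nat.primeFactors_mul (by norm_num) (by norm_num),
    Nat.primeFactors_mul (by norm_num) (by norm_num),
    Nat.primeFactors_mul (by norm_num) (by norm_num),
    Nat.primeFactors_pow _ (by norm_num), Nat.Prime.primeFactors (by norm_num),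
    Nat.Prime.primeFactors (by norm_num), Nat.Prime.primeFactors (by norm_num),
    Nat.Prime.primeFactors (by norm_num)]
  rfl

/-- in the first group there are no elements of order `p * q` with `p = 2, 3` and `q = 7, 43` -/
lemma no1 (p q : ℕ) (hp : p = 2 ∨ p = 3) (hq : q = 7 ∨ q = 43) (g : G1) :
    orderOf g ≠ p * q := by
  intro h
  obtain ⟨a, b, ha, hb, hab⟩ := split_order g p q (by omega) (by omega) h
  have h1 : a.right ≠ 1 := by
    apply right_ne_one a
    · rw [ha, card_R]
      rcases hp with rfl | rfl <;> norm_num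
    · rw [ha]; omega
  have h2 : b.right = 1 := by
    apply right_eq_one b
    rw [hb, card_K1]
    rcases hq with rfl | rfl <;> norm_num
  exact left_ne_zero b h2 (by rw [hb]; omega) (fpf1 _ h1 _ (fixed_of_commute a b h2 hab))

/-- in the second group there are no elements of order `3 * 43` and `7 * 43` -/
lemma no2 (p : ℕ) (hp : p = 3 ∨ p = 7) (g : G2) : orderOf g ≠ p * 43 := by
  intro h
  obtain ⟨a, b, ha, hb, hab⟩ := split_order g p 43 (by omega) (by omega) h
  have h1 : a.right ≠ 1 := by
    apply right_ne_one a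
    · rw [ha, card_W]
      rcases hp with rfl | rfl <;> norm_num
    · rw [ha]; omega
  have h2 : b.right = 1 := by
    apply right_eq_one b
    rw [hb, card_D]
    norm_num
  have h3 := fixed_of_commute a b h2 hab
  have h4 : a.right ^ p = 1 := by
    rw [← right_pow, ← ha, pow_orderOf_eq_one]; rfl
  have h5 : ∀ x : D, (∃ i, x = DihedralGroup.sr i) → x ^ p ≠ 1 := by
    rintro x ⟨i, rfl⟩ h
    have h6 : orderOf (DihedralGroup.sr i : D) ∣ p := orderOf_dvd_of_pow_eq_one h
    rw [DihedralGroup.orderOf_sr] at h6
    omega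
  rcases hr : a.right with i | i
  · rw [hr] at h1 h3
    have hi : i ≠ 0 := by
      rintro rfl
      exact h1 rfl
    exact left_ne_zero b h2 (by rw [hb]; norm_num) (fixed_r i hi _ h3)
  · exact h5 _ ⟨i, hr⟩ h4

/-- in the second group there are no elements of order `2 * 3` and `2 * 7` -/
lemma no3 (p : ℕ) (hp : p = 3 ∨ p = 7) (g : G2) : orderOf g ≠ 2 * p := by
  intro h
  obtain ⟨a, b, ha, hb, hab⟩ := split_order g 2 p (by omega) (by omega) h
  have h1 : a.right ≠ 1 := by
    apply right_ne_one a
    · rw [ha, card_W]; norm_num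
    · rw [ha]; omega
  have h2 : b.right ≠ 1 := by
    apply right_ne_one b
    · rw [hb, card_W]
      rcases hp with rfl | rfl <;> norm_num
    · rw [hb]; omega
  have h3 : a.right ^ 2 = 1 := by
    rw [← right_pow, ← ha, pow_orderOf_eq_one]; rfl
  have h4 : b.right ^ p = 1 := by
    rw [← right_pow, ← hb, pow_orderOf_eq_one]; rfl
  have h5 : a.right * b.right = b.right * a.right :=
    congrArg (fun x : G2 => x.right) hab
  rcases hr : a.right with i | i
  · rw [hr] at h3 h1
    have h6 : (i + i : ZMod 21) = 0 := by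
      rw [pow_two, DihedralGroup.r_mul_r, DihedralGroup.one_def] at h3
      exact DihedralGroup.r.inj h3
    have hz : ∀ i : ZMod 21, i + i = 0 → i = 0 := by decide
    exact h1 (by rw [hz i h6]; rfl)
  · rcases hs : b.right with j | j
    · rw [hr, hs] at h5
      rw [hs] at h2
      have h6 : (i + j : ZMod 21) = i - j := by
        rw [DihedralGroup.sr_mul_r, DihedralGroup.r_mul_sr] at h5
        simpa using h5
      have hz : ∀ i j : ZMod 21, i + j = i - j → j = 0 := by decide
      exact h2 (by rw [hz i j h6]; rfl)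
    · have h6 : orderOf (DihedralGroup.sr j : D) ∣ p := by
        rw [← hs]; exact orderOf_dvd_of_pow_eq_one h4
      rw [DihedralGroup.orderOf_sr] at h6
      rcases hp with rfl | rfl <;> omega

/-! ### Existence of elements -/

lemma orderOf_inl {V : Type} [AddCommGroup V] {K : Type} [Group K] [DistribMulAction K V]
    (v : V) : orderOf (SemidirectProduct.inl (Multiplicative.ofAdd v) : SD V K) = addOrderOf v := by
  rw [orderOf_injective _ SemidirectProduct.inl_injective, orderOf_ofAdd_eq_addOrderOf]

lemma orderOf_inr {V : Type} [AddCommGroup V] {K : Type} [Group K] [DistribMulAction K V]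
    (k : K) : orderOf (SemidirectProduct.inr k : SD V K) = orderOf k :=
  orderOf_injective _ SemidirectProduct.inr_injective _

lemma ex1a : ∃ g : G1, orderOf g = 2 * 3 := by
  refine ⟨SemidirectProduct.inr ⟨U, Subgroup.mem_zpowers U⟩, ?_⟩
  rw [orderOf_inr, Subgroup.orderOf_mk, orderOf_U]

lemma ex1b : ∃ g : G1, orderOf g = 7 * 43 := by
  refine ⟨SemidirectProduct.inl (Multiplicative.ofAdd ((1, 0, 1) : R)), ?_⟩
  rw [orderOf_inl, Prod.addOrderOf_mk, Prod.addOrderOf_mk]
  rw [addOrderOf_zero, ZMod.addOrderOf_one, ZMod.addOrderOf_one]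
  decide

lemma ex2a : ∃ g : G2, orderOf g = 3 * 7 := by
  refine ⟨SemidirectProduct.inr (DihedralGroup.r 1), ?_⟩
  rw [orderOf_inr, DihedralGroup.orderOf_r_one]

/-- a vector fixed by the reflection `sr 0` -/
def w1 : W := ((1, 1) : ZMod 43 × ZMod 43)

lemma order_w1 : addOrderOf w1 = 43 := by
  have h : addOrderOf w1 = addOrderOf ((1, 1) : ZMod 43 × ZMod 43) := rfl
  rw [h, Prod.addOrderOf_mk, ZMod.addOrderOf_one]
  decide

lemma fixed_w1 : (DihedralGroup.sr 0 : D) • w1 = w1 := by
  have h1 : (((zp 0)⁻¹ : (ZMod 43)ˣ) : ZMod 43) * 1 = 1 := by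
    rw [zp_zero, inv_one, Units.val_one, one_mul]
  have h2 : ((zp 0 : (ZMod 43)ˣ) : ZMod 43) * 1 = 1 := by
    rw [zp_zero, Units.val_one, one_mul]
  show act (DihedralGroup.sr 0) w1 = w1
  exact Prod.ext h1 h2

lemma ex2b : ∃ g : G2, orderOf g = 2 * 43 := by
  have h1 : orderOf (SemidirectProduct.inr (DihedralGroup.sr 0) : G2) = 2 := by
    rw [orderOf_inr, DihedralGroup.orderOf_sr]
  have h2 : orderOf (SemidirectProduct.inl (Multiplicative.ofAdd w1) : G2) = 43 := by
    rw [orderOf_inl, order_w1]
  have h3 : (SemidirectProduct.inr (DihedralGroup.sr 0) : G2) *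
      SemidirectProduct.inl (Multiplicative.ofAdd w1) =
      SemidirectProduct.inl (Multiplicative.ofAdd w1) *
        SemidirectProduct.inr (DihedralGroup.sr 0) := by
    have h4 : ((MulAutMultiplicative W).symm.toMonoidHom.comp (DistribMulAction.toAddAut D W))
        (DihedralGroup.sr 0) (Multiplicative.ofAdd w1) = Multiplicative.ofAdd w1 := by
      rw [act_eq, fixed_w1]
    apply SemidirectProduct.ext
    · simp only [SemidirectProduct.mul_left, SemidirectProduct.left_inr,
        SemidirectProduct.right_inr, SemidirectProduct.left_inl, SemidirectProduct.right_inl,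
        map_one, mul_one, one_mul, h4]
    · simp only [SemidirectProduct.mul_right, SemidirectProduct.right_inr,
        SemidirectProduct.right_inl, mul_one, one_mul]
  exact ⟨_, (order_mul _ _ h3 (by rw [h1, h2]; norm_num)).trans (congrArg₂ (· * ·) h1 h2)⟩

/-! ### The two graphs -/

lemma adj_symm {G : Type} [Group G] {p q : ℕ} (h : (primeGraph G).Adj p q) :
    (primeGraph G).Adj q p := (primeGraph G).symm.symm _ _ h

lemma adj1 (p q : ℕ) : (primeGraph G1).Adj p q ↔
    (p = 2 ∧ q = 3) ∨ (p = 3 ∧ q = 2) ∨ (p = 7 ∧ q = 43) ∨ (p = 43 ∧ q = 7) := by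
  constructor
  · rintro ⟨hne, hp, hq, g, hg⟩
    rw [card_G1, primes_eq] at hp hq
    simp only [Finset.mem_insert, Finset.mem_singleton] at hp hq
    have hn := fun p q hp hq => no1 p q hp hq g
    have e1 := hn 2 7 (by norm_num) (by norm_num)
    have e2 := hn 2 43 (by norm_num) (by norm_num)
    have e3 := hn 3 7 (by norm_num) (by norm_num)
    have e4 := hn 3 43 (by norm_num) (by norm_num)
    rcases hp with rfl | rfl | rfl | rfl <;> rcases hq with rfl | rfl | rfl | rfl <;> omega
  · have h0 : ∀ p ∈ ({2, 3, 7, 43} : Finset ℕ), p ∈ (Nat.card G1).primeFactors := by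
      rw [card_G1, primes_eq]; exact fun p hp => hp
    have h1 : (primeGraph G1).Adj 2 3 :=
      ⟨by norm_num, h0 _ (by decide), h0 _ (by decide), ex1a⟩
    have h2 : (primeGraph G1).Adj 7 43 :=
      ⟨by norm_num, h0 _ (by decide), h0 _ (by decide), ex1b⟩
    rintro (⟨rfl, rfl⟩ | ⟨rfl, rfl⟩ | ⟨rfl, rfl⟩ | ⟨rfl, rfl⟩)
    · exact h1
    · exact h1.symm
    · exact h2
    · exact h2.symm

lemma adj2 (p q : ℕ) : (primeGraph G2).Adj p q ↔
    (p = 3 ∧ q = 7) ∨ (p = 7 ∧ q = 3) ∨ (p = 2 ∧ q = 43) ∨ (p = 43 ∧ q = 2) := by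
  constructor
  · rintro ⟨hne, hp, hq, g, hg⟩
    rw [card_G2, primes_eq] at hp hq
    simp only [Finset.mem_insert, Finset.mem_singleton] at hp hq
    have e1 := no2 3 (by norm_num) g
    have e2 := no2 7 (by norm_num) g
    have e3 := no3 3 (by norm_num) g
    have e4 := no3 7 (by norm_num) g
    rcases hp with rfl | rfl | rfl | rfl <;> rcases hq with rfl | rfl | rfl | rfl <;> omega
  · have h0 : ∀ p ∈ ({2, 3, 7, 43} : Finset ℕ), p ∈ (Nat.card G2).primeFactors := by
      rw [card_G2, primes_eq]; exact fun p hp => hp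
    have h1 : (primeGraph G2).Adj 3 7 :=
      ⟨by norm_num, h0 _ (by decide), h0 _ (by decide), ex2a⟩
    have h2 : (primeGraph G2).Adj 2 43 :=
      ⟨by norm_num, h0 _ (by decide), h0 _ (by decide), ex2b⟩
    rintro (⟨rfl, rfl⟩ | ⟨rfl, rfl⟩ | ⟨rfl, rfl⟩ | ⟨rfl, rfl⟩)
    · exact h1
    · exact h1.symm
    · exact h2
    · exact h2.symm

lemma deg_of_forall {G : Type} [Group G] (p r : ℕ) (h : ∀ q, (primeGraph G).Adj p q ↔ q = r) :
    ((primeGraph G).neighborSet p).ncard = 1 := by
  have : (primeGraph G).neighborSet p = {r} := by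
    ext q
    rw [SimpleGraph.mem_neighborSet, h q]
    rfl
  rw [this, Set.ncard_singleton]

lemma deg1 (p : ℕ) (hp : p ∈ ({2, 3, 7, 43} : Finset ℕ)) :
    ((primeGraph G1).neighborSet p).ncard = 1 := by
  simp only [Finset.mem_insert, Finset.mem_singleton] at hp
  rcases hp with rfl | rfl | rfl | rfl
  · exact deg_of_forall 2 3 (fun q => by rw [adj1]; omega)
  · exact deg_of_forall 3 2 (fun q => by rw [adj1]; omega)
  · exact deg_of_forall 7 43 (fun q => by rw [adj1]; omega)
  · exact deg_of_forall 43 7 (fun q => by rw [adj1]; omega)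

lemma deg2 (p : ℕ) (hp : p ∈ ({2, 3, 7, 43} : Finset ℕ)) :
    ((primeGraph G2).neighborSet p).ncard = 1 := by
  simp only [Finset.mem_insert, Finset.mem_singleton] at hp
  rcases hp with rfl | rfl | rfl | rfl
  · exact deg_of_forall 2 43 (fun q => by rw [adj2]; omega)
  · exact deg_of_forall 3 7 (fun q => by rw [adj2]; omega)
  · exact deg_of_forall 7 3 (fun q => by rw [adj2]; omega)
  · exact deg_of_forall 43 2 (fun q => by rw [adj2]; omega)

lemma pattern_eq : degreePattern G1 = degreePattern G2 := by
  unfold degreePattern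
  rw [card_G1, card_G2, primes_eq]
  apply List.map_congr_left
  intro p hp
  rw [Finset.mem_sort] at hp
  rw [deg1 p hp, deg2 p hp]

lemma graph_ne : primeGraph G1 ≠ primeGraph G2 := by
  intro h
  have h1 : (primeGraph G1).Adj 2 3 := (adj1 2 3).2 (by omega)
  rw [h, adj2] at h1
  omega

/-! ### Solvability -/

lemma solvable_SD {V : Type} [AddCommGroup V] {K : Type} [Group K] [DistribMulAction K V]
    [Group.IsSolvable K] : Group.IsSolvable (SD V K) := by
  refine Group.isSolvable_of_ker_le_range (SemidirectProduct.inl : Multiplicative V →* SD V K)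
    (SemidirectProduct.rightHom : SD V K →* K) ?_
  rw [SemidirectProduct.range_inl_eq_ker_rightHom]

/-- the inclusion of the rotations -/
def rot : Multiplicative (ZMod 21) →* D where
  toFun i := DihedralGroup.r i.toAdd
  map_one' := rfl
  map_mul' _ _ := (DihedralGroup.r_mul_r _ _).symm

/-- the sign of an element of the dihedral group -/
def sgn : D →* Multiplicative (ZMod 2) where
  toFun
    | .r _ => 1
    | .sr _ => Multiplicative.ofAdd 1
  map_one' := rfl
  map_mul' a b := by
    have h : (1 : Multiplicative (ZMod 2)) = Multiplicative.ofAdd 1 * Multiplicative.ofAdd 1 := by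
      decide
    rcases a with _ | _ <;> rcases b with _ | _
    · rfl
    · rfl
    · rfl
    · exact h

lemma solvable_D : Group.IsSolvable D := by
  refine Group.isSolvable_of_ker_le_range rot sgn ?_
  intro a ha
  rcases a with i | i
  · exact ⟨Multiplicative.ofAdd i, rfl⟩
  · exfalso
    have h : sgn (DihedralGroup.sr i) = 1 := ha
    have h2 : (Multiplicative.ofAdd (1 : ZMod 2)) = 1 := h
    revert h2
    decide

/-- **Theorem.** There are finite (even solvable) groups `G` and `M` of the same order with the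
same degree pattern but with different prime graphs. -/
theorem result : ∃ (G M : Type) (_ : Group G) (_ : Group M), Finite G ∧ Finite M ∧
    Group.IsSolvable G ∧ Group.IsSolvable M ∧
    Nat.card G = Nat.card M ∧ degreePattern G = degreePattern M ∧ primeGraph G ≠ primeGraph M := by
  have hD : Group.IsSolvable D := solvable_D
  exact ⟨G1, G2, inferInstance, inferInstance, inferInstance, inferInstance, solvable_SD,
    solvable_SD, by rw [card_G1, card_G2], pattern_eq, graph_ne⟩

end Pool.Agent.Results.MP_21cc58_al.DegreePatternFails
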